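import Pool.Agent.Lib.MP_a8cbfa_co.Err
import Pool.Agent.Lib.MP_a8cbfa_co.Asym

set_option autoImplicit false

/-!
# The average number of antichains of a labelled poset

`avg n / 2^(n/2)` has two different limits, one along even and one along odd `n`.
-/

namespace Pool.Agent.Results.MP_a8cbfa_co.TwoLimits

open Filter Topology Pool.Agent.Lib.MP_a8cbfa_co

/-- `P(n)`: the set of all partial orders on the labelled set `Fin n`, as relations. -/
def orders (n : ℕ) : Set (Fin n → Fin n → Prop) :=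
  {r | (∀ x, r x x) ∧ (∀ x y, r x y → r y x → x = y) ∧ (∀ x y z, r x y → r y z → r x z)}

/-- `a(P)`: the number of antichains (sets of pairwise incomparable elements) of `r`. -/
noncomputable def numAntichains {n : ℕ} (r : Fin n → Fin n → Prop) : ℕ :=
  Nat.card {A : Finset (Fin n) // ∀ x ∈ A, ∀ y ∈ A, x ≠ y → ¬ r x y ∧ ¬ r y x}

/-- The average number of antichains of the members of `P(n)`. -/
noncomputable def avg (n : ℕ) : ℝ :=
  (∑ᶠ r : orders n, (numAntichains r.1 : ℝ)) / (Nat.card (orders n) : ℝ)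

/-- The theta constants `∑ 2 ^ (a j - j ^ 2)` over all integers `j`. -/
noncomputable def theta (a : ℤ) : ℝ := ∑' j : ℤ, (2 : ℝ) ^ (a * j - j ^ 2)

/-- A relation with truth values as a Boolean relation. -/
noncomputable def toBool {n : ℕ} (r : Fin n → Fin n → Prop) : Fin n → Fin n → Bool :=
  fun x y => @decide (r x y) (Classical.dec _)

theorem toBool_iff {n : ℕ} (r : Fin n → Fin n → Prop) (x y : Fin n) :
    toBool r x y = true ↔ r x y := by
  classical
  simp [toBool]

theorem toBool_of {n : ℕ} (r : Fin n → Fin n → Bool) :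
    toBool (fun x y => r x y = true) = r := by
  funext x y
  rw [Bool.eq_iff_iff, toBool_iff]

theorem isPo_toBool {n : ℕ} (r : Fin n → Fin n → Prop) : IsPo (toBool r) ↔ r ∈ orders n := by
  simp only [IsPo, toBool_iff, orders]
  rfl

theorem isAnti_toBool {n : ℕ} (r : Fin n → Fin n → Prop) (A : Finset (Fin n)) :
    IsAnti (toBool r) A ↔ ∀ x ∈ A, ∀ y ∈ A, x ≠ y → ¬ r x y ∧ ¬ r y x := by
  simp only [IsAnti, toBool_iff]
  constructor
  · intro h x hx y hy hxy
    exact ⟨fun h' => hxy (h x hx y hy h'), fun h' => hxy (h y hy x hx h').symm⟩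
  · intro h x hx y hy h'
    by_contra hxy
    exact (h x hx y hy hxy).1 h'

theorem card_orders (n : ℕ) : (Nat.card (orders n) : ℝ) = pNum n := by
  unfold pNum
  congr 1
  exact Nat.card_congr
    { toFun := fun r => ⟨toBool r.1, (isPo_toBool r.1).2 r.2⟩
      invFun := fun r => ⟨fun x y => r.1 x y = true, by
        have h := r.2
        rw [← toBool_of r.1, isPo_toBool] at h
        exact h⟩
      left_inv := fun r => by
        ext x y
        exact toBool_iff r.1 x y
      right_inv := fun r => Subtype.ext (toBool_of r.1) }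

theorem sum_antichains (n : ℕ) : (∑ᶠ r : orders n, (numAntichains r.1 : ℝ)) = sNum n := by
  classical
  have : Fintype (orders n) := Fintype.ofFinite _
  rw [finsum_eq_sum_of_fintype, ← Nat.cast_sum]
  unfold sNum numAntichains
  rw [← Nat.card_sigma]
  congr 1
  exact Nat.card_congr
    { toFun := fun p => ⟨(toBool p.1.1, p.2.1), (isPo_toBool p.1.1).2 p.1.2,
        (isAnti_toBool p.1.1 p.2.1).2 p.2.2⟩
      invFun := fun p => ⟨⟨fun x y => p.1.1 x y = true, by
          have h := p.2.1
          rw [← toBool_of p.1.1, isPo_toBool] at h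
          exact h⟩, ⟨p.1.2, by
          have h := p.2.2
          rw [← toBool_of p.1.1, isAnti_toBool] at h
          exact h⟩⟩
      left_inv := by
        rintro ⟨⟨r, hr⟩, ⟨A, hA⟩⟩
        have e : (fun x y => toBool r x y = true) = r := by
          funext x y
          exact propext (toBool_iff r x y)
        simp only
        congr! 1
        · exact Subtype.ext e
        · congr! 1
          funext A
          simp only [toBool_iff]
      right_inv := fun p => Subtype.ext (Prod.ext (toBool_of p.1.1) rfl) }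

theorem avg_eq (n : ℕ) : avg n = sNum n / pNum n := by
  rw [avg, sum_antichains, card_orders]

/-- The strict inequality between the two limits. -/
theorem theta_lt : theta 1 / (Real.sqrt 2 * theta 0) < theta 0 / theta 1 := by
  have h0 : Th 0 = theta 0 := rfl
  have h1 : Th 1 = theta 1 := rfl
  have t0 := Th_pos 0 (by norm_num)
  have t1 := Th_pos 1 (by norm_num)
  have s2 : 0 < Real.sqrt 2 := Real.sqrt_pos.2 (by norm_num)
  rw [← h0, ← h1, div_lt_div_iff₀ (by positivity) t1]
  have h2 := Th_zero_lower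
  have h3 := Th_one_upper
  have h4 : (1.41421356 : ℝ) ≤ Real.sqrt 2 := by
    rw [Real.le_sqrt (by norm_num) (by norm_num)]
    norm_num
  have h5 : Th 1 * Th 1 ≤ 2.5317414 * 2.5317414 := mul_le_mul h3 h3 t1.le (by norm_num)
  have h6 : (2.128936 : ℝ) * 2.128936 ≤ Th 0 * Th 0 := mul_le_mul h2 h2 (by norm_num) t0.le
  have h7 : (1.41421356 : ℝ) * (2.128936 * 2.128936) ≤ Real.sqrt 2 * (Th 0 * Th 0) :=
    mul_le_mul h4 h6 (by norm_num) s2.le
  have h8 : (2.5317414 : ℝ) * 2.5317414 < 1.41421356 * (2.128936 * 2.128936) := by norm_num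
  calc Th 1 * Th 1 ≤ 2.5317414 * 2.5317414 := h5
    _ < 1.41421356 * (2.128936 * 2.128936) := h8
    _ ≤ Real.sqrt 2 * (Th 0 * Th 0) := h7
    _ = Th 0 * (Real.sqrt 2 * Th 0) := by ring

/-- The limit along `n = 2 m + e`. -/
theorem tendsto_sub (e : ℕ) (he : e ≤ 1) :
    Tendsto (fun m : ℕ => avg (2 * m + e) / 2 ^ m) atTop
      (𝓝 (Th e / Th ((e : ℤ) - 1))) := by
  have h5 : Tendsto (fun m : ℕ => 2 * m + e) atTop atTop :=
    tendsto_atTop_mono (fun m => by simp only [id]; omega) tendsto_id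
  have hp := pNum_tendsto.comp h5
  have hS := sNum_tendsto.comp h5
  have h3 := (tendsto_TA_div_TT e he).mul (hS.div hp one_ne_zero)
  simp only [div_one, mul_one] at h3
  have hp0 := hp.eventually_ne one_ne_zero
  refine h3.congr' ?_
  filter_upwards [hp0] with m hpm
  have a3 := (TT_pos (2 * m + e)).ne'
  have a4 := (TA_pos (2 * m + e)).ne'
  have a1 : pNum (2 * m + e) ≠ 0 := fun h => hpm (by simp [h])
  simp only [Function.comp, Pi.div_apply, avg_eq]
  field_simp

theorem result :
    Tendsto (fun m : ℕ => avg (2 * m) / (2 : ℝ) ^ (((2 * m : ℕ) : ℝ) / 2)) atTop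
      (𝓝 (theta 0 / theta 1)) ∧
    Tendsto (fun m : ℕ => avg (2 * m + 1) / (2 : ℝ) ^ (((2 * m + 1 : ℕ) : ℝ) / 2)) atTop
      (𝓝 (theta 1 / (Real.sqrt 2 * theta 0))) ∧
    theta 1 / (Real.sqrt 2 * theta 0) < theta 0 / theta 1 ∧
    ¬ ∃ C : ℝ, Tendsto (fun n : ℕ => avg n / (2 : ℝ) ^ ((n : ℝ) / 2)) atTop (𝓝 C) := by
  have h0 : Tendsto (fun m : ℕ => avg (2 * m) / (2 : ℝ) ^ (((2 * m : ℕ) : ℝ) / 2)) atTop
      (𝓝 (theta 0 / theta 1)) := by
    have h4 := tendsto_sub 0 (by norm_num)
    have e1 : Th (((0 : ℕ) : ℤ) - 1) = Th 1 := by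
      rw [← Th_neg 1]
      congr 1
    rw [e1] at h4
    refine h4.congr fun m => ?_
    rw [add_zero]
    congr 1
    push_cast
    rw [mul_div_cancel_left₀ _ (two_ne_zero), Real.rpow_natCast]
  have h1 : Tendsto (fun m : ℕ => avg (2 * m + 1) / (2 : ℝ) ^ (((2 * m + 1 : ℕ) : ℝ) / 2)) atTop
      (𝓝 (theta 1 / (Real.sqrt 2 * theta 0))) := by
    have h4 := (tendsto_sub 1 le_rfl).div_const (Real.sqrt 2)
    have e1 : Th (((1 : ℕ) : ℤ) - 1) = Th 0 := by
      congr 1
    rw [e1] at h4
    have e3 : Th ((1 : ℕ) : ℤ) / Th 0 / Real.sqrt 2 = theta 1 / (Real.sqrt 2 * theta 0) := by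
      rw [div_div, mul_comm (Th 0)]
      rfl
    rw [e3] at h4
    refine h4.congr fun m => ?_
    have e2 : (2 : ℝ) ^ (((2 * m + 1 : ℕ) : ℝ) / 2) = 2 ^ m * Real.sqrt 2 := by
      push_cast
      rw [add_div, mul_div_cancel_left₀ _ (two_ne_zero), Real.rpow_add (by norm_num),
        Real.rpow_natCast, Real.sqrt_eq_rpow]
    rw [e2, div_div]
  refine ⟨h0, h1, theta_lt, ?_⟩
  rintro ⟨C, hC⟩
  have h5 : Tendsto (fun m : ℕ => 2 * m) atTop atTop :=
    tendsto_id.const_mul_atTop' (by norm_num)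
  have h6 : Tendsto (fun m : ℕ => 2 * m + 1) atTop atTop :=
    tendsto_atTop_mono (fun m => by simp only [id]; omega) tendsto_id
  have h7 := tendsto_nhds_unique (hC.comp h5) h0
  have h8 := tendsto_nhds_unique (hC.comp h6) h1
  exact absurd (h8.symm.trans h7) theta_lt.ne

end Pool.Agent.Results.MP_a8cbfa_co.TwoLimits
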